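import Pool.Agent.N554.HKS.Def

/-!
# Project HK (helper554), the structure of the infinite word (helper814)
-/

set_option autoImplicit false

namespace Pool.Agent.N814.HKS

open Pool.Agent.N554.HKS

theorem w_zero : w 0 = 1 := by rw [w]

theorem w_succ (n : ℕ) : w (n + 1) = T (w ((n + 1) / 22)) ((n + 1) % 22) := by rw [w]

theorem w_mul (i j : ℕ) (hj : j < 22) : w (22 * i + j) = T (w i) j := by
  rcases h : 22 * i + j with _ | n
  · have hi : i = 0 := by omega
    have hj0 : j = 0 := by omega
    subst hi
    subst hj0
    rw [w_zero]
    decide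
  · rw [w_succ]
    have h1 : (n + 1) / 22 = i := by omega
    have h2 : (n + 1) % 22 = j := by omega
    rw [h1, h2]

theorem theta_length (y : Fin 6) : (theta y).length = 22 := by
  revert y
  decide

theorem seg_length {A : Type*} (u : ℕ → A) (i n : ℕ) : (seg u i n).length = n := by
  simp [seg]

theorem seg_add {A : Type*} (u : ℕ → A) (i n m : ℕ) :
    seg u i (n + m) = seg u i n ++ seg u (i + n) m := by
  unfold seg
  rw [List.range_add, List.map_append, List.map_map]
  congr 1
  refine List.map_congr_left fun j _ => ?_
  simp only [Function.comp_apply]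
  congr 1
  omega

theorem seg_block (k : ℕ) : seg w (22 * k) 22 = theta (w k) := by
  refine List.ext_getElem (by rw [seg_length, theta_length]) fun j h1 h2 => ?_
  have hj : j < 22 := by rwa [seg_length] at h1
  refine Eq.trans (b := w (22 * k + j)) (by simp [seg]) ?_
  rw [w_mul k j hj]
  unfold T
  exact List.getD_eq_getElem _ _ h2

theorem WST_proof : WST := by
  refine ⟨w_mul, fun i N => ?_⟩
  induction N with
  | zero => simp [seg, ext]
  | succ N ih =>
    have h1 : 22 * (N + 1) = 22 * N + 22 := by ring
    have h2 : 22 * i + 22 * N = 22 * (i + N) := by ring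
    rw [h1, seg_add, ih, h2, seg_block, seg_add w i N 1]
    unfold ext
    rw [List.flatMap_append]
    congr 1
    simp [seg]

end Pool.Agent.N814.HKS
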